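import Pool.Agent.Helper93.TS.Stmts

set_option autoImplicit false

namespace Pool.Agent.Helper93.TS

open Pool.Agent.Helper8.Kak

theorem bas_log {N : ℕ} (hN : 1 ≤ N) : Real.log ((N * N : ℕ) : ℝ) = 2 * Real.log N := by
  have h0 : (N : ℝ) ≠ 0 := by
    have : 0 < N := hN
    exact_mod_cast this.ne'
  push_cast
  rw [Real.log_mul h0 h0]
  ring

theorem bas_jin {N : ℕ} {t t' : Fin (N * N)} (h1 : Jc t = Jc t') (h2 : In t = In t') : t = t' := by
  have e1 : (t : ℕ) / N = (t' : ℕ) / N := congrArg Fin.val h1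
  have e2 : (t : ℕ) % N = (t' : ℕ) % N := congrArg Fin.val h2
  apply Fin.ext
  rw [← Nat.div_add_mod (t : ℕ) N, e1, e2, Nat.div_add_mod]

open VV in
theorem st_BAS (h1 : ST_SPA) (h2 : ST_SPV) (h3 : ST_SPE) (h4 : ST_SPT) : ST_BAS := by
  intro m N D
  obtain ⟨hp, hl, m0, mS, m1, mR, mT, mB⟩ := h1 m N D
  obtain ⟨⟨a1, a2, a3, a4, a5, a6, a7, a8, a9, a10, a11, a12, a13⟩,
    b1, b2, b3, b4, b5, b6, b7, b8, b9, b10, b11, b12⟩ := h3 m N D
  obtain ⟨c1, c2⟩ := h4 m N D
  have hJ : D.eJ ≤ D.eL + Real.log N := by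
    have g := Ent_height_le D.hp (Setoid.ker D.l) (fun ω => Jc (D.T ω))
    have e : Setoid.ker (fun ω => Jc (D.T ω)) ⊓ Setoid.ker D.l
      = Setoid.ker D.l ⊓ Setoid.ker (fun ω => Jc (D.T ω)) := inf_comm _ _
    rw [e] at g
    unfold Dat.eJ Dat.eL
    linarith
  have hBT : D.H {T0, B} ≤ D.eT + Real.log N := by
    have g := Ent_height_le hp (D.V T0) (fun y => In (D.T (zB y)))
    have e : D.H {T0, B} ≤ Ent D.pz (Setoid.ker (fun y => In (D.T (zB y))) ⊓ D.V T0) := by
      refine Ent_mono' hp fun y y' hy hy' g => ?_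
      have g1 : In (D.T (zB y)) = In (D.T (zB y')) := g.1
      have g2 : D.T (z0 y) = D.T (z0 y') := g.2
      have k := (hl y hy).tB
      have k' := (hl y' hy').tB
      rw [inf_rel]
      simp only [Finset.mem_insert, Finset.mem_singleton, forall_eq_or_imp, forall_eq, D.V_T0,
        D.V_B]
      exact ⟨g2, bas_jin (by rw [k, k', g2]) g1⟩
    have e2 : Ent D.pz (D.V T0) = D.eT := by
      rw [← a9]
      unfold Dat.H HH
      rw [Finset.inf_singleton]
    rw [e2] at g
    linarith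
  have hTM : D.eT ≤ 2 * Real.log N := by
    have g := Ent_height_le D.hp ⊤ D.T
    rw [inf_top_eq, Ent_top D.hp, sub_zero, bas_log D.hN] at g
    exact g
  exact
    { hp := hp
      hr := h2 m N D
      hL0 := a1
      hL1 := a2
      h00 := a3
      h01 := a4
      h0S := a5
      h0B := a6
      h10 := a7
      h1R := a8
      hT0 := a9
      hT1 := a10
      hTS := a11
      hTR := a12
      hTB := a13
      hP0 := b1
      hPR := b2
      hPB := b3
      hY0 := b4
      hY1 := b5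
      hYS := b6
      hYR := b7
      hF0 := b8
      hF1 := b9
      hFR := b10
      hD0 := b11
      hD1 := b12
      tot := c1
      hTB0 := c2
      hJ := hJ
      hBT := hBT
      hTM := hTM }

end Pool.Agent.Helper93.TS
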