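import Pool.Agent.Helper93.TS.Stmts

set_option autoImplicit false

namespace Pool.Agent.Helper93.TS

open Pool.Agent.Helper8.Kak

open scoped Classical in
/-- conditional law in the class `c` -/
noncomputable def sla_cq {Ω : Type} [Fintype Ω] (p : Ω → ℝ) (R : Setoid Ω) (c : Quotient R)
    (w : Ω) : ℝ := if Quotient.mk R w = c then p w / cls p R w else 0

theorem sla_cq_nonneg {Ω : Type} [Fintype Ω] {p : Ω → ℝ} (hp : ∀ ω, 0 ≤ p ω) (R : Setoid Ω)
    (c : Quotient R) (w : Ω) : 0 ≤ sla_cq p R c w := by
  unfold sla_cq
  split_ifs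
  · exact div_nonneg (hp _) (cls_nonneg hp _ _)
  · exact le_rfl

theorem sla_cq_sum {Ω : Type} [Fintype Ω] {p : Ω → ℝ} (hp : ∀ ω, 0 < p ω) (R : Setoid Ω)
    (c : Quotient R) : ∑ w, sla_cq p R c w = 1 := by
  classical
  induction c using Quotient.inductionOn with
  | h ω =>
    have hc : 0 < cls p R ω := cls_pos (fun x => (hp x).le) R (hp ω)
    have e : ∀ w, sla_cq p R (Quotient.mk R ω) w = (if R ω w then p w else 0) / cls p R ω := by
      intro w
      unfold sla_cq
      by_cases h : R ω w
      · have h1 : Quotient.mk R w = Quotient.mk R ω := Quotient.sound (R.symm h)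
        rw [if_pos h1, if_pos h, cls_congr h]
      · have h1 : ¬ Quotient.mk R w = Quotient.mk R ω := fun h2 => h (R.symm (Quotient.exact h2))
        rw [if_neg h1, if_neg h, zero_div]
    rw [Finset.sum_congr rfl fun w _ => e w, ← Finset.sum_div]
    have e2 : ∑ w, (if R ω w then p w else 0) = cls p R ω := by
      unfold cls
      rfl
    rw [e2]
    exact div_self hc.ne'

theorem st_SLA : ST_SLA := by
  intro Ω _ p hp hpos R
  classical
  refine ⟨Quotient R → Ω, inferInstance, fun π => ∏ c, sla_cq p R c (π c), fun π c => π c,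
    ⟨?_, ?_⟩, ?_, ?_⟩
  · intro π
    exact Finset.prod_nonneg fun c _ => sla_cq_nonneg hp.1 R c _
  · have h := Finset.prod_univ_sum (fun _ : Quotient R => (Finset.univ : Finset Ω))
      (fun c w => sla_cq p R c w)
    rw [Fintype.piFinset_univ] at h
    rw [← h]
    exact Finset.prod_eq_one fun c _ => sla_cq_sum hpos R c
  · intro π c h
    by_contra h1
    have h2 : ∏ c, sla_cq p R c (π c) = 0 := by
      refine Finset.prod_eq_zero (Finset.mem_univ c) ?_
      unfold sla_cq
      rw [if_neg h1]
    have h3 : (0 : ℝ) < ∏ c, sla_cq p R c (π c) := h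
    rw [h2] at h3
    exact lt_irrefl _ h3
  · intro ω
    set g : Quotient R → Ω → ℝ := fun c w =>
      if c = Quotient.mk R ω then (if w = ω then sla_cq p R c w else 0) else sla_cq p R c w with hg
    have h := Finset.prod_univ_sum (fun _ : Quotient R => (Finset.univ : Finset Ω)) g
    rw [Fintype.piFinset_univ] at h
    have e1 : law (fun π : Quotient R → Ω => ∏ c, sla_cq p R c (π c))
        (fun π => π (Quotient.mk R ω)) ω = ∑ π : Quotient R → Ω, ∏ c, g c (π c) := by
      unfold law
      refine Finset.sum_congr rfl fun π _ => ?_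
      by_cases h1 : π (Quotient.mk R ω) = ω
      · rw [if_pos h1]
        refine Finset.prod_congr rfl fun c _ => ?_
        simp only [hg]
        by_cases h2 : c = Quotient.mk R ω
        · rw [if_pos h2, if_pos (by rw [h2]; exact h1)]
        · rw [if_neg h2]
      · rw [if_neg h1]
        symm
        refine Finset.prod_eq_zero (Finset.mem_univ (Quotient.mk R ω)) ?_
        simp only [hg]
        rw [if_pos trivial, if_neg h1]
    rw [e1, ← h, Finset.prod_eq_single (Quotient.mk R ω)]
    · simp only [hg]
      simp only [if_true]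
      rw [Finset.sum_ite_eq' Finset.univ ω]
      rw [if_pos (Finset.mem_univ _)]
      unfold sla_cq
      rw [if_pos rfl]
    · intro c _ hc
      simp only [hg]
      rw [Finset.sum_congr rfl fun w _ => if_neg hc]
      exact sla_cq_sum hpos R c
    · intro h1
      exact absurd (Finset.mem_univ _) h1

end Pool.Agent.Helper93.TS
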