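import Pool.Agent.Helper93.TS.Stmts

set_option autoImplicit false
set_option linter.unusedSimpArgs false

namespace Pool.Agent.Helper93.TS

open Pool.Agent.Helper8.Kak

open VV in
theorem st_SPE (h1 : ST_SPA) : ST_SPE := by
  intro m N D
  obtain ⟨hp, hl, m0, mS, m1, mR, mT, mB⟩ := h1 m N D
  refine ⟨⟨?_, ?_, ?_, ?_, ?_, ?_, ?_, ?_, ?_, ?_, ?_, ?_, ?_⟩,
    ⟨?_, ?_, ?_, ?_, ?_, ?_, ?_, ?_, ?_, ?_, ?_, ?_⟩⟩
  · refine HH_coord hp m0 D.V _ (Setoid.ker D.l) fun y y' h h' => ?_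
    have k := hl y h
    have k' := hl y' h'
    simp only [Finset.mem_insert, Finset.mem_singleton, forall_eq_or_imp, forall_eq, D.V_l0, D.V_l1,
      D.V_T0, D.V_T1, D.V_S, D.V_R, D.V_B, D.V_P0, D.V_PR, D.V_Q, D.V_P0c, D.V_P1c, D.V_PSc,
      D.V_PRc, D.V_d0, D.V_d1, Setoid.inf_iff_and, Setoid.ker_def, k.lS, k.lT, k.lR, k.lB, k.t1,
      k'.lS, k'.lT, k'.lR, k'.lB, k'.t1, k.p0, k'.p0, and_assoc]
  · refine HH_coord hp m1 D.V _ (Setoid.ker D.l) fun y y' h h' => ?_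
    have k := hl y h
    have k' := hl y' h'
    simp only [Finset.mem_insert, Finset.mem_singleton, forall_eq_or_imp, forall_eq, D.V_l0, D.V_l1,
      D.V_T0, D.V_T1, D.V_S, D.V_R, D.V_B, D.V_P0, D.V_PR, D.V_Q, D.V_P0c, D.V_P1c, D.V_PSc,
      D.V_PRc, D.V_d0, D.V_d1, Setoid.inf_iff_and, Setoid.ker_def, k.lS, k.lT, k.lR, k.lB, k.t1,
      k'.lS, k'.lT, k'.lR, k'.lB, k'.t1, k.p0, k'.p0, and_assoc]
  · refine HH_coord hp m0 D.V _ (Setoid.ker D.l ⊓ Setoid.ker D.T) fun y y' h h' => ?_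
    have k := hl y h
    have k' := hl y' h'
    simp only [Finset.mem_insert, Finset.mem_singleton, forall_eq_or_imp, forall_eq, D.V_l0, D.V_l1,
      D.V_T0, D.V_T1, D.V_S, D.V_R, D.V_B, D.V_P0, D.V_PR, D.V_Q, D.V_P0c, D.V_P1c, D.V_PSc,
      D.V_PRc, D.V_d0, D.V_d1, Setoid.inf_iff_and, Setoid.ker_def, k.lS, k.lT, k.lR, k.lB, k.t1,
      k'.lS, k'.lT, k'.lR, k'.lB, k'.t1, k.p0, k'.p0, and_assoc]
  · refine HH_coord hp mT D.V _ (Setoid.ker D.l ⊓ Setoid.ker D.T) fun y y' h h' => ?_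
    have k := hl y h
    have k' := hl y' h'
    simp only [Finset.mem_insert, Finset.mem_singleton, forall_eq_or_imp, forall_eq, D.V_l0, D.V_l1,
      D.V_T0, D.V_T1, D.V_S, D.V_R, D.V_B, D.V_P0, D.V_PR, D.V_Q, D.V_P0c, D.V_P1c, D.V_PSc,
      D.V_PRc, D.V_d0, D.V_d1, Setoid.inf_iff_and, Setoid.ker_def, k.lS, k.lT, k.lR, k.lB, k.t1,
      k'.lS, k'.lT, k'.lR, k'.lB, k'.t1, k.p0, k'.p0, and_assoc]
  · refine HH_coord hp mS D.V _ (Setoid.ker D.l ⊓ Setoid.ker D.T) fun y y' h h' => ?_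
    have k := hl y h
    have k' := hl y' h'
    simp only [Finset.mem_insert, Finset.mem_singleton, forall_eq_or_imp, forall_eq, D.V_l0, D.V_l1,
      D.V_T0, D.V_T1, D.V_S, D.V_R, D.V_B, D.V_P0, D.V_PR, D.V_Q, D.V_P0c, D.V_P1c, D.V_PSc,
      D.V_PRc, D.V_d0, D.V_d1, Setoid.inf_iff_and, Setoid.ker_def, k.lS, k.lT, k.lR, k.lB, k.t1,
      k'.lS, k'.lT, k'.lR, k'.lB, k'.t1, k.p0, k'.p0, and_assoc]
  · refine HH_coord hp mB D.V _ (Setoid.ker D.l ⊓ Setoid.ker D.T) fun y y' h h' => ?_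
    have k := hl y h
    have k' := hl y' h'
    simp only [Finset.mem_insert, Finset.mem_singleton, forall_eq_or_imp, forall_eq, D.V_l0, D.V_l1,
      D.V_T0, D.V_T1, D.V_S, D.V_R, D.V_B, D.V_P0, D.V_PR, D.V_Q, D.V_P0c, D.V_P1c, D.V_PSc,
      D.V_PRc, D.V_d0, D.V_d1, Setoid.inf_iff_and, Setoid.ker_def, k.lS, k.lT, k.lR, k.lB, k.t1,
      k'.lS, k'.lT, k'.lR, k'.lB, k'.t1, k.p0, k'.p0, and_assoc]
  · refine HH_coord hp m1 D.V _ (Setoid.ker D.l ⊓ Setoid.ker D.T) fun y y' h h' => ?_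
    have k := hl y h
    have k' := hl y' h'
    simp only [Finset.mem_insert, Finset.mem_singleton, forall_eq_or_imp, forall_eq, D.V_l0, D.V_l1,
      D.V_T0, D.V_T1, D.V_S, D.V_R, D.V_B, D.V_P0, D.V_PR, D.V_Q, D.V_P0c, D.V_P1c, D.V_PSc,
      D.V_PRc, D.V_d0, D.V_d1, Setoid.inf_iff_and, Setoid.ker_def, k.lS, k.lT, k.lR, k.lB, k.t1,
      k'.lS, k'.lT, k'.lR, k'.lB, k'.t1, k.p0, k'.p0, and_assoc]
  · refine HH_coord hp mR D.V _ (Setoid.ker D.l ⊓ Setoid.ker D.T) fun y y' h h' => ?_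
    have k := hl y h
    have k' := hl y' h'
    simp only [Finset.mem_insert, Finset.mem_singleton, forall_eq_or_imp, forall_eq, D.V_l0, D.V_l1,
      D.V_T0, D.V_T1, D.V_S, D.V_R, D.V_B, D.V_P0, D.V_PR, D.V_Q, D.V_P0c, D.V_P1c, D.V_PSc,
      D.V_PRc, D.V_d0, D.V_d1, Setoid.inf_iff_and, Setoid.ker_def, k.lS, k.lT, k.lR, k.lB, k.t1,
      k'.lS, k'.lT, k'.lR, k'.lB, k'.t1, k.p0, k'.p0, and_assoc]
  · refine HH_coord hp m0 D.V _ (Setoid.ker D.T) fun y y' h h' => ?_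
    have k := hl y h
    have k' := hl y' h'
    simp only [Finset.mem_insert, Finset.mem_singleton, forall_eq_or_imp, forall_eq, D.V_l0, D.V_l1,
      D.V_T0, D.V_T1, D.V_S, D.V_R, D.V_B, D.V_P0, D.V_PR, D.V_Q, D.V_P0c, D.V_P1c, D.V_PSc,
      D.V_PRc, D.V_d0, D.V_d1, Setoid.inf_iff_and, Setoid.ker_def, k.lS, k.lT, k.lR, k.lB, k.t1,
      k'.lS, k'.lT, k'.lR, k'.lB, k'.t1, k.p0, k'.p0, and_assoc]
  · refine HH_coord hp mT D.V _ (Setoid.ker D.T) fun y y' h h' => ?_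
    have k := hl y h
    have k' := hl y' h'
    simp only [Finset.mem_insert, Finset.mem_singleton, forall_eq_or_imp, forall_eq, D.V_l0, D.V_l1,
      D.V_T0, D.V_T1, D.V_S, D.V_R, D.V_B, D.V_P0, D.V_PR, D.V_Q, D.V_P0c, D.V_P1c, D.V_PSc,
      D.V_PRc, D.V_d0, D.V_d1, Setoid.inf_iff_and, Setoid.ker_def, k.lS, k.lT, k.lR, k.lB, k.t1,
      k'.lS, k'.lT, k'.lR, k'.lB, k'.t1, k.p0, k'.p0, and_assoc]
  · refine HH_coord hp mS D.V _ (Setoid.ker D.T) fun y y' h h' => ?_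
    have k := hl y h
    have k' := hl y' h'
    simp only [Finset.mem_insert, Finset.mem_singleton, forall_eq_or_imp, forall_eq, D.V_l0, D.V_l1,
      D.V_T0, D.V_T1, D.V_S, D.V_R, D.V_B, D.V_P0, D.V_PR, D.V_Q, D.V_P0c, D.V_P1c, D.V_PSc,
      D.V_PRc, D.V_d0, D.V_d1, Setoid.inf_iff_and, Setoid.ker_def, k.lS, k.lT, k.lR, k.lB, k.t1,
      k'.lS, k'.lT, k'.lR, k'.lB, k'.t1, k.p0, k'.p0, and_assoc]
  · refine HH_coord hp mR D.V _ (Setoid.ker D.T) fun y y' h h' => ?_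
    have k := hl y h
    have k' := hl y' h'
    simp only [Finset.mem_insert, Finset.mem_singleton, forall_eq_or_imp, forall_eq, D.V_l0, D.V_l1,
      D.V_T0, D.V_T1, D.V_S, D.V_R, D.V_B, D.V_P0, D.V_PR, D.V_Q, D.V_P0c, D.V_P1c, D.V_PSc,
      D.V_PRc, D.V_d0, D.V_d1, Setoid.inf_iff_and, Setoid.ker_def, k.lS, k.lT, k.lR, k.lB, k.t1,
      k'.lS, k'.lT, k'.lR, k'.lB, k'.t1, k.p0, k'.p0, and_assoc]
  · refine HH_coord hp mB D.V _ (Setoid.ker D.T) fun y y' h h' => ?_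
    have k := hl y h
    have k' := hl y' h'
    simp only [Finset.mem_insert, Finset.mem_singleton, forall_eq_or_imp, forall_eq, D.V_l0, D.V_l1,
      D.V_T0, D.V_T1, D.V_S, D.V_R, D.V_B, D.V_P0, D.V_PR, D.V_Q, D.V_P0c, D.V_P1c, D.V_PSc,
      D.V_PRc, D.V_d0, D.V_d1, Setoid.inf_iff_and, Setoid.ker_def, k.lS, k.lT, k.lR, k.lB, k.t1,
      k'.lS, k'.lT, k'.lR, k'.lB, k'.t1, k.p0, k'.p0, and_assoc]
  · refine HH_coord hp m0 D.V _ (Setoid.ker D.T ⊓ Setoid.ker (fun ω => D.Pf (D.l ω) (D.T ω))) fun y y' h h' => ?_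
    have k := hl y h
    have k' := hl y' h'
    simp only [Finset.mem_insert, Finset.mem_singleton, forall_eq_or_imp, forall_eq, D.V_l0, D.V_l1,
      D.V_T0, D.V_T1, D.V_S, D.V_R, D.V_B, D.V_P0, D.V_PR, D.V_Q, D.V_P0c, D.V_P1c, D.V_PSc,
      D.V_PRc, D.V_d0, D.V_d1, Setoid.inf_iff_and, Setoid.ker_def, k.lS, k.lT, k.lR, k.lB, k.t1,
      k'.lS, k'.lT, k'.lR, k'.lB, k'.t1, k.p0, k'.p0, and_assoc]
  · refine HH_coord hp mR D.V _ (Setoid.ker D.T ⊓ Setoid.ker (fun ω => D.Pf (D.l ω) (D.T ω))) fun y y' h h' => ?_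
    have k := hl y h
    have k' := hl y' h'
    simp only [Finset.mem_insert, Finset.mem_singleton, forall_eq_or_imp, forall_eq, D.V_l0, D.V_l1,
      D.V_T0, D.V_T1, D.V_S, D.V_R, D.V_B, D.V_P0, D.V_PR, D.V_Q, D.V_P0c, D.V_P1c, D.V_PSc,
      D.V_PRc, D.V_d0, D.V_d1, Setoid.inf_iff_and, Setoid.ker_def, k.lS, k.lT, k.lR, k.lB, k.t1,
      k'.lS, k'.lT, k'.lR, k'.lB, k'.t1, k.p0, k'.p0, and_assoc]
  · refine HH_coord hp mB D.V _ (Setoid.ker D.T ⊓ Setoid.ker (fun ω => D.Pf (D.l ω) (D.T ω))) fun y y' h h' => ?_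
    have k := hl y h
    have k' := hl y' h'
    simp only [Finset.mem_insert, Finset.mem_singleton, forall_eq_or_imp, forall_eq, D.V_l0, D.V_l1,
      D.V_T0, D.V_T1, D.V_S, D.V_R, D.V_B, D.V_P0, D.V_PR, D.V_Q, D.V_P0c, D.V_P1c, D.V_PSc,
      D.V_PRc, D.V_d0, D.V_d1, Setoid.inf_iff_and, Setoid.ker_def, k.lS, k.lT, k.lR, k.lB, k.t1,
      k'.lS, k'.lT, k'.lR, k'.lB, k'.t1, k.p0, k'.p0, and_assoc]
  · refine HH_coord hp m0 D.V _ (Setoid.ker D.T ⊓ Setoid.ker (fun ω => D.Pc (D.l ω) (D.T ω))) fun y y' h h' => ?_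
    have k := hl y h
    have k' := hl y' h'
    simp only [Finset.mem_insert, Finset.mem_singleton, forall_eq_or_imp, forall_eq, D.V_l0, D.V_l1,
      D.V_T0, D.V_T1, D.V_S, D.V_R, D.V_B, D.V_P0, D.V_PR, D.V_Q, D.V_P0c, D.V_P1c, D.V_PSc,
      D.V_PRc, D.V_d0, D.V_d1, Setoid.inf_iff_and, Setoid.ker_def, k.lS, k.lT, k.lR, k.lB, k.t1,
      k'.lS, k'.lT, k'.lR, k'.lB, k'.t1, k.p0, k'.p0, and_assoc]
  · refine HH_coord hp mT D.V _ (Setoid.ker D.T ⊓ Setoid.ker (fun ω => D.Pc (D.l ω) (D.T ω))) fun y y' h h' => ?_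
    have k := hl y h
    have k' := hl y' h'
    simp only [Finset.mem_insert, Finset.mem_singleton, forall_eq_or_imp, forall_eq, D.V_l0, D.V_l1,
      D.V_T0, D.V_T1, D.V_S, D.V_R, D.V_B, D.V_P0, D.V_PR, D.V_Q, D.V_P0c, D.V_P1c, D.V_PSc,
      D.V_PRc, D.V_d0, D.V_d1, Setoid.inf_iff_and, Setoid.ker_def, k.lS, k.lT, k.lR, k.lB, k.t1,
      k'.lS, k'.lT, k'.lR, k'.lB, k'.t1, k.p0, k'.p0, and_assoc]
  · refine HH_coord hp mS D.V _ (Setoid.ker D.T ⊓ Setoid.ker (fun ω => D.Pc (D.l ω) (D.T ω))) fun y y' h h' => ?_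
    have k := hl y h
    have k' := hl y' h'
    simp only [Finset.mem_insert, Finset.mem_singleton, forall_eq_or_imp, forall_eq, D.V_l0, D.V_l1,
      D.V_T0, D.V_T1, D.V_S, D.V_R, D.V_B, D.V_P0, D.V_PR, D.V_Q, D.V_P0c, D.V_P1c, D.V_PSc,
      D.V_PRc, D.V_d0, D.V_d1, Setoid.inf_iff_and, Setoid.ker_def, k.lS, k.lT, k.lR, k.lB, k.t1,
      k'.lS, k'.lT, k'.lR, k'.lB, k'.t1, k.p0, k'.p0, and_assoc]
  · refine HH_coord hp mR D.V _ (Setoid.ker D.T ⊓ Setoid.ker (fun ω => D.Pc (D.l ω) (D.T ω))) fun y y' h h' => ?_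
    have k := hl y h
    have k' := hl y' h'
    simp only [Finset.mem_insert, Finset.mem_singleton, forall_eq_or_imp, forall_eq, D.V_l0, D.V_l1,
      D.V_T0, D.V_T1, D.V_S, D.V_R, D.V_B, D.V_P0, D.V_PR, D.V_Q, D.V_P0c, D.V_P1c, D.V_PSc,
      D.V_PRc, D.V_d0, D.V_d1, Setoid.inf_iff_and, Setoid.ker_def, k.lS, k.lT, k.lR, k.lB, k.t1,
      k'.lS, k'.lT, k'.lR, k'.lB, k'.t1, k.p0, k'.p0, and_assoc]
  · refine HH_coord hp m0 D.V _ (Setoid.ker D.T ⊓ Setoid.ker (fun ω => D.Pf (D.l ω) (D.T ω)) ⊓ Setoid.ker (fun ω => D.dc (D.l ω))) fun y y' h h' => ?_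
    have k := hl y h
    have k' := hl y' h'
    simp only [Finset.mem_insert, Finset.mem_singleton, forall_eq_or_imp, forall_eq, D.V_l0, D.V_l1,
      D.V_T0, D.V_T1, D.V_S, D.V_R, D.V_B, D.V_P0, D.V_PR, D.V_Q, D.V_P0c, D.V_P1c, D.V_PSc,
      D.V_PRc, D.V_d0, D.V_d1, Setoid.inf_iff_and, Setoid.ker_def, k.lS, k.lT, k.lR, k.lB, k.t1,
      k'.lS, k'.lT, k'.lR, k'.lB, k'.t1, k.p0, k'.p0, and_assoc]
  · refine HH_coord hp m1 D.V _ (Setoid.ker D.T ⊓ Setoid.ker (fun ω => D.Pf (D.l ω) (D.T ω)) ⊓ Setoid.ker (fun ω => D.dc (D.l ω))) fun y y' h h' => ?_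
    have k := hl y h
    have k' := hl y' h'
    simp only [Finset.mem_insert, Finset.mem_singleton, forall_eq_or_imp, forall_eq, D.V_l0, D.V_l1,
      D.V_T0, D.V_T1, D.V_S, D.V_R, D.V_B, D.V_P0, D.V_PR, D.V_Q, D.V_P0c, D.V_P1c, D.V_PSc,
      D.V_PRc, D.V_d0, D.V_d1, Setoid.inf_iff_and, Setoid.ker_def, k.lS, k.lT, k.lR, k.lB, k.t1,
      k'.lS, k'.lT, k'.lR, k'.lB, k'.t1, k.p0, k'.p0, and_assoc]
  · refine HH_coord hp mR D.V _ (Setoid.ker D.T ⊓ Setoid.ker (fun ω => D.Pf (D.l ω) (D.T ω)) ⊓ Setoid.ker (fun ω => D.dc (D.l ω))) fun y y' h h' => ?_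
    have k := hl y h
    have k' := hl y' h'
    simp only [Finset.mem_insert, Finset.mem_singleton, forall_eq_or_imp, forall_eq, D.V_l0, D.V_l1,
      D.V_T0, D.V_T1, D.V_S, D.V_R, D.V_B, D.V_P0, D.V_PR, D.V_Q, D.V_P0c, D.V_P1c, D.V_PSc,
      D.V_PRc, D.V_d0, D.V_d1, Setoid.inf_iff_and, Setoid.ker_def, k.lS, k.lT, k.lR, k.lB, k.t1,
      k'.lS, k'.lT, k'.lR, k'.lB, k'.t1, k.p0, k'.p0, and_assoc]
  · refine HH_coord hp m0 D.V _ (Setoid.ker (fun ω => D.dc (D.l ω))) fun y y' h h' => ?_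
    have k := hl y h
    have k' := hl y' h'
    simp only [Finset.mem_insert, Finset.mem_singleton, forall_eq_or_imp, forall_eq, D.V_l0, D.V_l1,
      D.V_T0, D.V_T1, D.V_S, D.V_R, D.V_B, D.V_P0, D.V_PR, D.V_Q, D.V_P0c, D.V_P1c, D.V_PSc,
      D.V_PRc, D.V_d0, D.V_d1, Setoid.inf_iff_and, Setoid.ker_def, k.lS, k.lT, k.lR, k.lB, k.t1,
      k'.lS, k'.lT, k'.lR, k'.lB, k'.t1, k.p0, k'.p0, and_assoc]
  · refine HH_coord hp m1 D.V _ (Setoid.ker (fun ω => D.dc (D.l ω))) fun y y' h h' => ?_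
    have k := hl y h
    have k' := hl y' h'
    simp only [Finset.mem_insert, Finset.mem_singleton, forall_eq_or_imp, forall_eq, D.V_l0, D.V_l1,
      D.V_T0, D.V_T1, D.V_S, D.V_R, D.V_B, D.V_P0, D.V_PR, D.V_Q, D.V_P0c, D.V_P1c, D.V_PSc,
      D.V_PRc, D.V_d0, D.V_d1, Setoid.inf_iff_and, Setoid.ker_def, k.lS, k.lT, k.lR, k.lB, k.t1,
      k'.lS, k'.lT, k'.lR, k'.lB, k'.t1, k.p0, k'.p0, and_assoc]

end Pool.Agent.Helper93.TS
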