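import Pool.Agent.Helper93.TS.Stmts

set_option autoImplicit false

namespace Pool.Agent.Helper93.TS

open Pool.Agent.Helper8.Kak

theorem st_cP (h1 : ST_PRE) : ST_cP := by
  intro m N D
  have hP := h1 m N D
  have hN0 : (0 : ℝ) < (N : ℝ) := by exact_mod_cast Nat.lt_of_lt_of_le Nat.zero_lt_one D.hN
  have hcd : 0 < cd N := by unfold cd; positivity
  refine cost_le D.V _ _ VV.P1c (by decide +kernel) _ fun r hr => ?_
  simp only [Finset.mem_insert, Finset.mem_singleton, forall_eq_or_imp, forall_eq, D.V_w, D.V_b,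
    D.V_d1] at hr
  have h2 := Pool.Agent.Helper89.KakGeo.CE_known (δ := cd N) hP.hp hcd r
    (fun y => pnt D.x D.v (D.l (z0 y)) (D.T (zT y)))
    (fun y i => cd N * (D.vw y i : ℤ) - (D.vb y : ℝ) / ((N * N : ℕ) : ℝ) *
      (cd N * (D.dc (D.l (z1 y)) i : ℤ)))
    (fun y => 1 + |(D.vb y : ℝ)| / ((N * N : ℕ) : ℝ)) (a := 1) (k := 5) (by norm_num)
    (by norm_num) (fun y => by
      have : 0 ≤ |(D.vb y : ℝ)| / ((N * N : ℕ) : ℝ) := by positivity
      linarith) ?_ ?_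
  · have h3 : CE D.pz (D.V VV.P1c) r = CE D.pz (Setoid.ker (fun y => cell (cd N)
        (pnt D.x D.v (D.l (z0 y)) (D.T (zT y))))) r := rfl
    rw [h3]
    refine h2.trans (mul_le_kk hP.κ0 ?_)
    have h4 : Ex D.pz (fun y => Real.log (1 + |(D.vb y : ℝ)| / ((N * N : ℕ) : ℝ)))
        = Ex D.pz (fun y => up (N * N) (D.vb y)) := rfl
    rw [h4]
    linarith [hP.upb, hP.κ0, log5_le]
  · intro y y' hy hy' g
    obtain ⟨g1, g2, g3⟩ := hr y y' g
    refine ⟨?_, by rw [g2]⟩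
    funext i
    rw [g1, g2, g3]
  · intro y hy i
    have e1 := Pool.Agent.Helper89.KakGeo.cell_err hcd
      (frm D.x D.v (D.l (z0 y)) (D.T (zT y)) (D.vb y) (D.v (D.l (z1 y)))) i
    have e2 := Pool.Agent.Helper89.KakGeo.cell_err hcd (D.v (D.l (z1 y))) i
    have e3 : D.vw y i = cell (cd N)
      (frm D.x D.v (D.l (z0 y)) (D.T (zT y)) (D.vb y) (D.v (D.l (z1 y)))) i := rfl
    have e4 : D.dc (D.l (z1 y)) i = cell (cd N) (D.v (D.l (z1 y))) i := rfl
    simp only [e3, e4]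
    set A : ℤ := cell (cd N)
      (frm D.x D.v (D.l (z0 y)) (D.T (zT y)) (D.vb y) (D.v (D.l (z1 y)))) i with hA
    set B : ℤ := cell (cd N) (D.v (D.l (z1 y))) i with hB
    have e5 : frm D.x D.v (D.l (z0 y)) (D.T (zT y)) (D.vb y) (D.v (D.l (z1 y))) i
      = pnt D.x D.v (D.l (z0 y)) (D.T (zT y)) i + (D.vb y : ℝ) / ((N * N : ℕ) : ℝ) *
        D.v (D.l (z1 y)) i := rfl
    rw [e5] at e1
    set u := pnt D.x D.v (D.l (z0 y)) (D.T (zT y)) i with hu
    set v := D.v (D.l (z1 y)) i with hv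
    set b := (D.vb y : ℝ) with hb
    set M := ((N * N : ℕ) : ℝ) with hM
    have hM0 : 0 < M := by
      rw [hM]; push_cast; positivity
    have e6 : u - (cd N * (A : ℝ) - b / M * (cd N * (B : ℝ)))
        = (u + b / M * v - cd N * (A : ℝ)) - b / M * (v - cd N * (B : ℝ)) := by ring
    rw [e6]
    have e7 : |b / M * (v - cd N * (B : ℝ))| ≤ |b| / M * cd N := by
      rw [abs_mul, abs_div, abs_of_pos hM0]
      exact mul_le_mul_of_nonneg_left e2 (by positivity)
    calc |(u + b / M * v - cd N * (A : ℝ)) - b / M * (v - cd N * (B : ℝ))|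
        ≤ |u + b / M * v - cd N * (A : ℝ)| + |b / M * (v - cd N * (B : ℝ))| := abs_sub _ _
      _ ≤ cd N + |b| / M * cd N := add_le_add e1 e7
      _ = 1 * (1 + |b| / M) * cd N := by ring

end Pool.Agent.Helper93.TS
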