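import Pool.Agent.Helper93.TS.Stmts

set_option autoImplicit false

namespace Pool.Agent.Helper93.TS

open Pool.Agent.Helper8.Kak

theorem st_cPR (h1 : ST_PRE) : ST_cPR := by
  intro m N D
  have hP := h1 m N D
  have hN1 : (1 : ℝ) ≤ (N : ℝ) := by exact_mod_cast D.hN
  have hN0 : (0 : ℝ) < (N : ℝ) := by linarith
  have hcd : 0 < cd N := by unfold cd; positivity
  have hfd : 0 < fd N := by unfold fd; push_cast; positivity
  have hfc : fd N ≤ cd N := by
    unfold fd cd
    refine one_div_le_one_div_of_le hN0 ?_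
    push_cast
    nlinarith
  refine cost_le D.V _ _ VV.P0c (by decide +kernel) _ fun r hr => ?_
  simp only [Finset.mem_insert, Finset.mem_singleton, forall_eq_or_imp, forall_eq, D.V_PR, D.V_d1,
    D.V_R, D.V_T0] at hr
  have h3 : CE D.pz (D.V VV.P0c) r ≤ CE D.pz (Setoid.ker (fun y => cell (cd N)
      (pnt D.x D.v (D.l (z1 y)) (D.T (z0 y))))) r := by
    refine CE_mono hP.hp fun y y' hy hy' g1 _ => ?_
    rw [Setoid.ker_def] at g1
    rw [D.V_P0c, ← (hP.lk y hy).pc, ← (hP.lk y' hy').pc]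
    exact g1
  refine h3.trans ?_
  have h2 := Pool.Agent.Helper89.KakGeo.CE_known (δ := cd N) hP.hp hcd r
    (fun y => pnt D.x D.v (D.l (z1 y)) (D.T (z0 y)))
    (fun y i => fd N * (D.Pf (D.l (z1 y)) (D.T (zR y)) i : ℤ) -
      (ht (D.T (zR y)) - ht (D.T (z0 y))) * (cd N * (D.dc (D.l (z1 y)) i : ℤ)))
    (fun _ => 1) (a := 2) (k := 7) (by norm_num) (by norm_num) (fun y => le_rfl) ?_ ?_
  · refine h2.trans (mul_le_kk hP.κ0 ?_)
    have h4 : Ex D.pz (fun _ => Real.log 1) = 0 := by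
      rw [Real.log_one]
      unfold Ex
      simp
    rw [h4]
    linarith [hP.κ0, log7_le]
  · intro y y' hy hy' g
    obtain ⟨g1, g2, g3, g4⟩ := hr y y' g
    refine ⟨?_, rfl⟩
    funext i
    rw [g1, g2, g3, g4]
  · intro y hy i
    have e1 := Pool.Agent.Helper89.KakGeo.cell_err hfd
      (pnt D.x D.v (D.l (z1 y)) (D.T (zR y))) i
    have e2 := Pool.Agent.Helper89.KakGeo.cell_err hcd (D.v (D.l (z1 y))) i
    have e3 : D.Pf (D.l (z1 y)) (D.T (zR y)) i = cell (fd N)
      (pnt D.x D.v (D.l (z1 y)) (D.T (zR y))) i := rfl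
    have e4 : D.dc (D.l (z1 y)) i = cell (cd N) (D.v (D.l (z1 y))) i := rfl
    simp only [e3, e4]
    set A : ℤ := cell (fd N) (pnt D.x D.v (D.l (z1 y)) (D.T (zR y))) i with hA
    set B : ℤ := cell (cd N) (D.v (D.l (z1 y))) i with hB
    have e5 : pnt D.x D.v (D.l (z1 y)) (D.T (z0 y)) i
      = pnt D.x D.v (D.l (z1 y)) (D.T (zR y)) i -
        (ht (D.T (zR y)) - ht (D.T (z0 y))) * D.v (D.l (z1 y)) i := by
      unfold pnt
      ring
    rw [e5]
    set u := pnt D.x D.v (D.l (z1 y)) (D.T (zR y)) i with hu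
    set v := D.v (D.l (z1 y)) i with hv
    have hd : |ht (D.T (zR y)) - ht (D.T (z0 y))| ≤ 1 := by
      have a1 := ht_nonneg (D.T (zR y))
      have a2 := (ht_lt_one (D.T (zR y))).le
      have a3 := ht_nonneg (D.T (z0 y))
      have a4 := (ht_lt_one (D.T (z0 y))).le
      rw [abs_le]
      constructor <;> linarith
    set d := ht (D.T (zR y)) - ht (D.T (z0 y)) with hdd
    have e6 : u - d * v - (fd N * (A : ℝ) - d * (cd N * (B : ℝ)))
        = (u - fd N * (A : ℝ)) - d * (v - cd N * (B : ℝ)) := by ring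
    rw [e6]
    have e7 : |d * (v - cd N * (B : ℝ))| ≤ 1 * cd N := by
      rw [abs_mul]
      exact mul_le_mul hd e2 (abs_nonneg _) zero_le_one
    calc |(u - fd N * (A : ℝ)) - d * (v - cd N * (B : ℝ))|
        ≤ |u - fd N * (A : ℝ)| + |d * (v - cd N * (B : ℝ))| := abs_sub _ _
      _ ≤ fd N + 1 * cd N := add_le_add e1 e7
      _ ≤ 2 * 1 * cd N := by linarith

end Pool.Agent.Helper93.TS
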